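import Pool.Agent.U308.SG.One
import Pool.Agent.U308.SH.Count

set_option autoImplicit false

/-! Prime tuples: the uniform count. -/

namespace Pool.Agent.U308.SG
open Finset
open Pool.Agent.U308.SH (count)
open Pool.Agent.H373R2.T7
open Pool.Agent.W93.TD
open Pool.Agent.N469.PT
open Pool.Agent.N469.SM (SS mem_SS one_mem_SS SS_mono card_SS_le card_SS_pos)

lemma HLs_mono {k : ℕ} (ε : ℝ) (U U' N : ℕ) (hU : U ≤ U') (hN : 1 ≤ Real.log N) (a : Fin k → ℕ) (h : HLs ε U' N a) : HLs ε U N a := by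
  obtain ⟨S, h1, h2, h3⟩ := h
  refine ⟨S, h1, h2.trans ?_, h3⟩
  apply div_le_div_of_nonneg_left (Nat.cast_nonneg _) (by positivity)
  exact pow_le_pow_right₀ hN hU

open Classical in
theorem tuples (s : ℕ) (hs : 1 ≤ s) (δ : ℝ) (hδ : 0 < δ) (κκ : Fin s → ℕ) (hκ : ∀ i, 1 ≤ κκ i) (K B U W : ℕ) (ε : ℝ) (hε : 0 < ε) :
    ∃ N₀ : ℕ, ∀ N, N₀ ≤ N → ∀ (P : Fin s → Finset ℕ) (y x : Fin s → ℕ), (∀ i, Dt2 δ K B N (P i) (y i) (x i)) →
    ∀ c : Fin s → ℕ, (∀ i, c i ≤ B * N) →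
    (((Fintype.piFinset fun i => SS (P i) (x i)).filter fun v => ¬ ∀ t : Fin s → ℕ, (∀ i, (t i : ℝ) ≤ Real.log N ^ W) →
      HLs ε U N (fun i => c i + κκ i * v i + t i)).card : ℝ) ≤ (Fintype.piFinset fun i => SS (P i) (x i)).card / Real.log N ^ U := by
  obtain ⟨U', hU'⟩ : ∃ U', U' = U + (W + 2) * s + 3 := ⟨_, rfl⟩
  obtain ⟨a, n, ha1, hn1, hdom⟩ := dom2 δ hδ
  obtain ⟨h, hh1, hone⟩ := lw_one2 δ a n hn1 hdom K (2 * U' + 6 + s + 2)
  obtain ⟨N1, h1⟩ := ws_final s hs (fun _ => Lw2 δ K B h n) κκ hκ (B + 1) U' ε hε (fun i => hone B (κκ i) (B + 1) (hκ i))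
  obtain ⟨N2, h2⟩ := hdom K B 1 h U' 0 0 le_rfl hh1
  obtain ⟨N4, h4⟩ := ev_L' (6 * s + 4)
  obtain ⟨N5, h5⟩ := ev_log' W 1
  refine ⟨N1 + N2 + N4 + N5 + 2, fun N hN P y x hD c hc => ?_⟩
  have hL := h4 N (by omega)
  have hW := h5 N (by omega)
  obtain ⟨L, hLd⟩ : ∃ L, L = Real.log (N : ℝ) := ⟨_, rfl⟩
  rw [← hLd] at hL hW ⊢
  have hLL := hLd.symm
  have q1 : (0 : ℝ) ≤ 6 * s := by positivity
  have hL4 : 4 ≤ L := by linarith
  have hL1 : 1 ≤ L := by linarith
  have hL0 : 0 < L := by linarith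
  have hdm := fun i => h2 N (by omega) (P i) (y i) (x i) (hD i)
  choose f1 f2 f3 f4 f5 f6 f7 f8 Z hZ1 hZ2 hZ3 using hdm
  obtain ⟨T, hT⟩ : ∃ T : ℝ, T = ((Fintype.piFinset fun i => SS (P i) (x i)).card : ℝ) := ⟨_, rfl⟩
  have hT0 : 0 ≤ T := by rw [hT]; exact Nat.cast_nonneg _
  rw [← hT]
  have hLy : ∀ i, L ≤ y i := by
    intro i
    have := f2 i
    rw [one_mul, hLL] at this
    exact this
  -- one vector of offsets
  have hone' : ∀ t : Fin s → ℕ, (∀ i, (t i : ℝ) ≤ L ^ W) →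
      (((Fintype.piFinset fun i => SS (P i) (x i)).filter fun v => ¬ HLs ε U' N (fun i => (c i + t i) + κκ i * v i)).card : ℝ) ≤
        L ^ (s + 2) / L ^ U' * T := by
    intro t ht
    have htN : ∀ i, c i + t i ≤ (B + 1) * N := by
      intro i
      have e3 : √(N : ℝ) ≤ N := by
        rw [Real.sqrt_le_left (by positivity)]
        have : (1 : ℝ) ≤ N := by exact_mod_cast (by omega : 1 ≤ N)
        nlinarith
      have e1 : (t i : ℝ) ≤ N := by
        refine (ht i).trans (le_trans ?_ e3)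
        rw [one_mul] at hW
        exact hW
      have e2 : t i ≤ N := by exact_mod_cast e1
      rw [add_mul, one_mul]
      exact Nat.add_le_add (hc i) e2
    have k1 := h1 N (by omega) (fun i => SS (P i) (x i)) (fun i v => (rr h n (2 * (K + 1)) (y i) (P i) v : ℝ) / TR h n (2 * (K + 1)) (y i) (P i) (x i))
      (fun i => ⟨P i, y i, x i, hD i, rfl, rfl⟩) (fun i => c i + t i) htN
    rw [hLL] at k1
    have hTWpos : ∀ i, 0 < TR h n (2 * (K + 1)) (y i) (P i) (x i) := by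
      intro i
      have e1 : (0 : ℝ) < y i := lt_of_lt_of_le hL0 (hLy i)
      exact lt_of_lt_of_le (by positivity) (f7 i)
    have k2 := count (fun i => SS (P i) (x i)) Z (fun i v => (rr h n (2 * (K + 1)) (y i) (P i) v : ℝ) / TR h n (2 * (K + 1)) (y i) (P i) (x i))
      (fun v => ¬ HLs ε U' N (fun i => (c i + t i) + κκ i * v i)) L (1 / L ^ U') (2 / L ^ U') (by positivity) (by positivity)
      (by
        intro i
        have e1 : L ^ U' ≤ (y i : ℝ) ^ U' := pow_le_pow_left₀ hL0.le (hLy i) _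
        have e2 : ((Z i).card : ℝ) * L ^ U' ≤ 2 * (SS (P i) (x i)).card := (mul_le_mul_of_nonneg_left e1 (Nat.cast_nonneg _)).trans (hZ2 i)
        rw [div_mul_eq_mul_div, le_div_iff₀ (by positivity)]
        exact e2)
      (by
        intro i v _
        exact div_nonneg (Nat.cast_nonneg _) (hTWpos i).le)
      (by
        intro i v hv hvZ
        have e1 := hZ3 i v hv hvZ
        rw [hLL] at e1
        rw [mul_div_assoc', le_div_iff₀ (hTWpos i), one_mul]
        refine e1.trans (le_of_eq ?_)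
        ring)
      k1
    rw [← hT] at k2
    refine k2.trans (mul_le_mul_of_nonneg_right ?_ hT0)
    have e1 : (s : ℝ) * (2 / L ^ U') + L ^ s * (1 / L ^ U') = (2 * s + L ^ s) / L ^ U' := by
      field_simp
    rw [e1]
    apply div_le_div_of_nonneg_right _ (by positivity)
    have e2 : 1 ≤ L ^ s := one_le_pow₀ hL1
    calc (2 : ℝ) * s + L ^ s ≤ L * L ^ s + L * L ^ s := by
          apply add_le_add
          · calc (2 : ℝ) * s ≤ L := by linarith
              _ = L * 1 := (mul_one L).symm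
              _ ≤ _ := mul_le_mul_of_nonneg_left e2 hL0.le
          · exact le_mul_of_one_le_left (by positivity) hL1
      _ = 2 * (L * L ^ s) := by ring
      _ ≤ L * (L * L ^ s) := mul_le_mul_of_nonneg_right (by linarith) (by positivity)
      _ = _ := by ring
  -- all offsets
  obtain ⟨M, hM⟩ : ∃ M : ℕ, M = ⌊L ^ W⌋₊ + 1 := ⟨_, rfl⟩
  obtain ⟨TT, hTT⟩ : ∃ TT : Finset (Fin s → ℕ), TT = Fintype.piFinset (fun _ => range M) := ⟨_, rfl⟩
  have hmemT : ∀ t ∈ TT, ∀ i, (t i : ℝ) ≤ L ^ W := by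
    intro t ht i
    rw [hTT, Fintype.mem_piFinset] at ht
    have e1 := mem_range.1 (ht i)
    have e2 : t i ≤ ⌊L ^ W⌋₊ := by omega
    exact (Nat.cast_le.2 e2).trans (Nat.floor_le (by positivity))
  have hsub : ((Fintype.piFinset fun i => SS (P i) (x i)).filter fun v => ¬ ∀ t : Fin s → ℕ, (∀ i, (t i : ℝ) ≤ L ^ W) →
      HLs ε U N (fun i => c i + κκ i * v i + t i)) ⊆
      TT.biUnion fun t => (Fintype.piFinset fun i => SS (P i) (x i)).filter fun v => ¬ HLs ε U' N (fun i => (c i + t i) + κκ i * v i) := by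
    intro v hv
    rw [mem_filter] at hv
    obtain ⟨hv1, hv2⟩ := hv
    push Not at hv2
    obtain ⟨t, ht1, ht2⟩ := hv2
    rw [mem_biUnion]
    refine ⟨t, ?_, ?_⟩
    · rw [hTT, Fintype.mem_piFinset]
      intro i
      rw [mem_range, hM, Nat.lt_succ_iff]
      exact Nat.le_floor (ht1 i)
    · rw [mem_filter]
      refine ⟨hv1, fun hh => ht2 ?_⟩
      have e1 : (fun i => c i + κκ i * v i + t i) = fun i => (c i + t i) + κκ i * v i := by
        funext i
        ring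
      rw [e1]
      exact HLs_mono ε U U' N (by omega) (by rw [hLL]; exact hL1) _ hh
  have hcardT : (TT.card : ℝ) ≤ (L ^ (W + 1)) ^ s := by
    rw [hTT, Fintype.card_piFinset, prod_const, card_univ, Fintype.card_fin, card_range]
    push_cast
    apply pow_le_pow_left₀ (Nat.cast_nonneg _)
    rw [hM]
    push_cast
    have e1 : (⌊L ^ W⌋₊ : ℝ) ≤ L ^ W := Nat.floor_le (by positivity)
    have e2 : 1 ≤ L ^ W := one_le_pow₀ hL1
    rw [pow_succ]
    nlinarith
  have hfin : ((((Fintype.piFinset fun i => SS (P i) (x i)).filter fun v => ¬ ∀ t : Fin s → ℕ, (∀ i, (t i : ℝ) ≤ L ^ W) →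
      HLs ε U N (fun i => c i + κκ i * v i + t i)).card : ℕ) : ℝ) ≤ (L ^ (W + 1)) ^ s * (L ^ (s + 2) / L ^ U' * T) := by
    have e1 : ((((Fintype.piFinset fun i => SS (P i) (x i)).filter fun v => ¬ ∀ t : Fin s → ℕ, (∀ i, (t i : ℝ) ≤ L ^ W) →
      HLs ε U N (fun i => c i + κκ i * v i + t i)).card : ℕ) : ℝ) ≤
        ∑ t ∈ TT, (((Fintype.piFinset fun i => SS (P i) (x i)).filter fun v => ¬ HLs ε U' N (fun i => (c i + t i) + κκ i * v i)).card : ℝ) := by
      exact_mod_cast (card_le_card hsub).trans card_biUnion_le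
    refine e1.trans ((sum_le_card_nsmul _ _ _ fun t ht => hone' t (hmemT t ht)).trans ?_)
    rw [nsmul_eq_mul]
    exact mul_le_mul_of_nonneg_right hcardT (by positivity)
  refine hfin.trans ?_
  rw [le_div_iff₀ (by positivity)]
  have e1 : L ^ U' = (L ^ (W + 1)) ^ s * L ^ (s + 2) * L ^ U * L := by
    rw [← pow_mul, ← pow_add, ← pow_add, ← pow_succ, hU']
    congr 1
    ring
  rw [e1]
  have e2 : (L ^ (W + 1)) ^ s * (L ^ (s + 2) / ((L ^ (W + 1)) ^ s * L ^ (s + 2) * L ^ U * L) * T) * L ^ U = T / L := by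
    field_simp
  rw [e2]
  exact div_le_self hT0 hL1

end Pool.Agent.U308.SG
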